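import Mathlib
import Pool.Agent.H314.OmOm.Fin

set_option autoImplicit false

/-!
# MP_00bf54_lc: isomorphism of c.e. commutative semigroups and `E_min (ω ^ ω)`

Both questions have a positive answer with `α = ω ^ ω`: isomorphism of finitely generated
commutative semigroups given by c.e. presentations is computably reducible to `E_min (ω ^ ω)`,
and so is isomorphism of `n`-generated ones, for every `n ≥ 1`.

The reduction: for a commutative semigroup `S` enumerate all finite lists `F` of oriented relations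
(larger word first, in the lexicographic ordering of the exponents) between words in finitely many
generators which hold in `S` under some surjective homomorphism onto `S`; to `F` belongs the
Cantor normal form made of the numbers of maximal cylinders of each dimension in the complement
of the monomial ideal of the first words, followed by the code of `F`. The least of these ordinals
belongs to a presentation of `S`, and the set depends only on the isomorphism type of `S`.
-/

namespace Pool.Agent.Results.MP_00bf54_lc.OmegaOmega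

open Encodable Pool.Agent.H314.OmOm Ordinal

/-- `E ≤_c F`. -/
def CompRed (E F : ℕ → ℕ → Prop) : Prop :=
  ∃ f : ℕ → ℕ, Computable f ∧ ∀ e i, E e i ↔ F (f e) (f i)

/-- `x` is the least element of `S` in the ordering `r`. -/
def Least (r : ℕ → ℕ → Prop) (S : Set ℕ) (x : ℕ) : Prop := x ∈ S ∧ ∀ y ∈ S, y ≠ x → r x y

/-- `E_min` of an ordering `r` of the natural numbers: `W e` and `W i` are both empty, or they
have the same least element. -/
def Emin (r : ℕ → ℕ → Prop) (e i : ℕ) : Prop :=
  (W e = ∅ ∧ W i = ∅) ∨ ∃ x, Least r (W e) x ∧ Least r (W i) x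

/-- Isomorphism of the commutative semigroups `⟨x_0, ..., x_(n-1) | W e⟩`. -/
def IsoCS (n e i : ℕ) : Prop := Nonempty ((pres n e).Quotient ≃+ (pres n i).Quotient)

/-- Isomorphism of finitely generated commutative semigroups; the number `x` with
`x = Nat.pair k j` is the index of `⟨x_0, ..., x_k | W j⟩`. -/
def IsoCSfg (x y : ℕ) : Prop :=
  Nonempty ((pres (x.unpair.1 + 1) x.unpair.2).Quotient ≃+
    (pres (y.unpair.1 + 1) y.unpair.2).Quotient)

theorem not_ord_iff {x y : ℕ} : ¬ Ord y x ↔ y = x ∨ Ord x y := by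
  constructor
  · intro h
    rcases lt_or_eq_of_le (not_lt.1 h) with h1 | h1
    · exact Or.inr h1
    · exact Or.inl (lst_inj (cnf_inj h1.symm))
  · rintro (rfl | h)
    · exact lt_irrefl _
    · exact not_lt.2 (le_of_lt h)

theorem least_iff {S : Set ℕ} {x : ℕ} : Least Ord S x ↔ x ∈ S ∧ ∀ y ∈ S, ¬ Ord y x := by
  refine and_congr Iff.rfl (forall₂_congr fun y _ => ?_)
  rw [not_ord_iff]
  constructor
  · intro h
    by_cases hy : y = x
    · exact Or.inl hy
    · exact Or.inr (h hy)
  · rintro (h | h) hy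
    · exact absurd h hy
    · exact h

theorem red (k e k' e' : ℕ) {f : ℕ → ℕ} (a b : ℕ)
    (ha : ∀ y, y ∈ W (f a) ↔ y ∈ WS (Sg k e)) (hb : ∀ y, y ∈ W (f b) ↔ y ∈ WS (Sg k' e')) :
    Nonempty (Sg k e ≃+ Sg k' e') ↔ Emin Ord (f a) (f b) := by
  have ha' : W (f a) = WS (Sg k e) := Set.ext ha
  have hb' : W (f b) = WS (Sg k' e') := Set.ext hb
  unfold Emin
  rw [ha', hb']
  constructor
  · rintro ⟨φ⟩
    right
    rw [← WS_iso φ]
    obtain ⟨x, hx, hmin⟩ := ord_wf.has_min _ (WS_nonempty k e)
    exact ⟨x, least_iff.2 ⟨hx, hmin⟩, least_iff.2 ⟨hx, hmin⟩⟩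
  · rintro (⟨h, -⟩ | ⟨x, h1, h2⟩)
    · exact absurd h (WS_nonempty k e).ne_empty
    · rw [least_iff] at h1 h2
      exact iso_of_least h1.1 h2.1 h1.2 h2.2

theorem exists_f : ∃ f : ℕ → ℕ, Computable f ∧
    ∀ a y, y ∈ W (f a) ↔ y ∈ WS (Sg (a.unpair.1 + 1) a.unpair.2) := by
  have h : Computable fun x : ℕ × ℕ => ((x.1.unpair.1 + 1, x.1.unpair.2), x.2) := by fun_prop
  obtain ⟨f, hf, h1⟩ := exists_smn (R := fun a y => Mem (a.unpair.1 + 1) a.unpair.2 y)
    (Pool.Agent.Helper446.RE.comp (p := fun z : (ℕ × ℕ) × ℕ => Mem z.1.1 z.1.2 z.2) mem_re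
      (f := fun x : ℕ × ℕ => ((x.1.unpair.1 + 1, x.1.unpair.2), x.2)) h)
  exact ⟨f, hf, fun a y => (h1 a y).trans (mem_iff _ _ _)⟩

/-- Isomorphism of c.e. presented finitely generated commutative semigroups is computably
reducible to `E_min (ω ^ ω)`, and so is isomorphism of `n`-generated ones for every `n ≥ 1`.
Here `E_min (ω ^ ω)` is `E_min` of the ordering `Ord` of the natural numbers by the Cantor normal
forms they code, a computable well-ordering of type `ω ^ ω` in which `x` has the rank
`cnf (lst x)`. -/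
theorem result :
    (ComputablePred (fun x : ℕ × ℕ => Ord x.1 x.2) ∧ Ordinal.type Ord = ω ^ ω ∧
      ∀ x, Ordinal.typein Ord x = cnf (lst x)) ∧
    CompRed IsoCSfg (Emin Ord) ∧ ∀ n, 1 ≤ n → CompRed (IsoCS n) (Emin Ord) := by
  refine ⟨⟨ord_c, type_ord, typein_ord⟩, ?_⟩
  obtain ⟨f, hf, h⟩ := exists_f
  refine ⟨⟨f, hf, fun a b => red _ _ _ _ a b (h a) (h b)⟩, ?_⟩
  intro n hn
  obtain ⟨m, rfl⟩ : ∃ m, n = m + 1 := ⟨n - 1, by omega⟩
  refine ⟨fun e => f (Nat.pair m e), hf.comp (by fun_prop), fun a b => ?_⟩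
  have h1 : ∀ e y, y ∈ W (f (Nat.pair m e)) ↔ y ∈ WS (Sg (m + 1) e) := by
    intro e y
    rw [h, Nat.unpair_pair]
  exact red (f := fun e => f (Nat.pair m e)) _ _ _ _ a b (h1 a) (h1 b)

end Pool.Agent.Results.MP_00bf54_lc.OmegaOmega
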